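import Pool.Agent.H47.MED.Stmts

/-!
# Row ENE of the board `med`: energy and Cauchy-Schwarz modulo `r ^ 2`
-/

set_option autoImplicit false

namespace Pool.MED

open Finset

namespace ENEaux

theorem cop {r : ℕ} (hr : r.Prime) {A X : ℤ} (h : ¬ (r : ℤ) ∣ A)
    (h2 : (r : ℤ) ^ 2 ∣ A * X) : (r : ℤ) ^ 2 ∣ X := by
  have h3 : IsCoprime (r : ℤ) A :=
    ((Nat.prime_iff_prime_int.mp hr).irreducible.coprime_iff_not_dvd).mpr h
  exact (h3.pow_left (m := 2)).dvd_of_dvd_mul_left h2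

theorem om {r : ℕ} (hr : r.Prime) (e : ℕ) : (2 * e) ^ (r ^ 2).primeFactors.card = 2 * e := by
  rw [Nat.primeFactors_prime_pow (by norm_num) hr]
  simp

theorem copr {r x : ℕ} (hr : r.Prime) (h : ¬ r ∣ x) : x.Coprime (r ^ 2) :=
  ((hr.coprime_iff_not_dvd.mpr h).pow_left 2).symm

theorem mq {r N : ℕ} (_hr : r.Prime) (h : N ≤ 4 * r ^ 2) : N / r ^ 2 + 1 ≤ 5 := by
  have : N / r ^ 2 ≤ 4 := by
    apply Nat.div_le_of_le_mul
    rw [mul_comm]; exact h
  omega

end ENEaux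

open ENEaux

theorem ene_thm (h1 : S_RTN) (h2 : S_RTP) : S_ENE := by
  classical
  intro r E e1 e2 f P1 P2 Q A B W hr he1 he1E he2 he2E hf hfE hA hB hP1 hQ hW
  have hr2 : 0 < r ^ 2 := pow_pos hr.pos 2
  -- the pairs with a common q
  set PW : Finset ((ℕ × ℕ × ℕ) × (ℕ × ℕ × ℕ)) :=
    (W ×ˢ W).filter (fun p => p.1.2.2 = p.2.2.2) with hPW
  have hmem : ∀ p ∈ PW, p.1 ∈ W ∧ p.2 ∈ W ∧ p.1.2.2 = p.2.2.2 := by
    intro p hp
    rw [hPW, Finset.mem_filter, Finset.mem_product] at hp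
    exact ⟨hp.1.1, hp.1.2, hp.2⟩
  -- Cauchy-Schwarz
  have hCS : W.card ^ 2 ≤ Q * PW.card := by
    set S : Finset ℕ := W.image (fun w => w.2.2) with hS
    have hSc : S.card ≤ Q := by
      have : S ⊆ Finset.Icc 1 Q := by
        intro q hq
        rw [hS, Finset.mem_image] at hq
        obtain ⟨w, hw, rfl⟩ := hq
        have := hW w hw
        rw [Finset.mem_Icc]
        refine ⟨Nat.one_le_iff_ne_zero.mpr ?_, this.2.2.1⟩
        intro h0
        exact this.2.2.2.2.2.2.1 (by rw [h0]; exact dvd_zero r)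
      calc S.card ≤ (Finset.Icc 1 Q).card := Finset.card_le_card this
        _ = Q := by simp
    have e1' : W.card = ∑ q ∈ S, (W.filter (fun w => w.2.2 = q)).card :=
      Finset.card_eq_sum_card_image _ _
    have e2' : ∑ q ∈ S, (W.filter (fun w => w.2.2 = q)).card ^ 2 ≤ PW.card := by
      have hm : ∀ p ∈ PW, p.1.2.2 ∈ S := by
        intro p hp
        rw [hS]
        exact Finset.mem_image_of_mem _ (hmem p hp).1
      rw [Finset.card_eq_sum_card_fiberwise hm]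
      apply Finset.sum_le_sum
      intro q _
      rw [pow_two, ← Finset.card_product]
      apply Finset.card_le_card
      intro p hp
      rw [Finset.mem_product, Finset.mem_filter, Finset.mem_filter] at hp
      rw [Finset.mem_filter, hPW, Finset.mem_filter, Finset.mem_product]
      exact ⟨⟨⟨hp.1.1, hp.2.1⟩, by rw [hp.1.2, hp.2.2]⟩, hp.1.2⟩
    calc W.card ^ 2 = (∑ q ∈ S, (W.filter (fun w => w.2.2 = q)).card) ^ 2 := by rw [← e1']
      _ ≤ S.card * ∑ q ∈ S, (W.filter (fun w => w.2.2 = q)).card ^ 2 :=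
          sq_sum_le_card_mul_sum_sq
      _ ≤ Q * PW.card := Nat.mul_le_mul hSc e2'
  -- the quadruples
  set T : Finset (ℕ × ℕ × ℕ × ℕ) :=
    PW.image (fun p => (p.1.1, p.1.2.1, p.2.1, p.2.2.1)) with hT
  have hPT : PW.card ≤ 10 * E * T.card := by
    apply Finset.card_le_mul_card_image
    intro t _
    set G := PW.filter (fun p => (p.1.1, p.1.2.1, p.2.1, p.2.2.1) = t) with hG
    have hinj : Set.InjOn (fun p : (ℕ × ℕ × ℕ) × (ℕ × ℕ × ℕ) => p.1.2.2) (G : Set _) := by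
      intro p hp p' hp' hpp
      rw [hG, Finset.mem_coe, Finset.mem_filter] at hp hp'
      obtain ⟨⟨a, b, c⟩, ⟨a', b', c'⟩⟩ := p
      obtain ⟨⟨u, v, w⟩, ⟨u', v', w'⟩⟩ := p'
      have q1 := (hmem _ hp.1).2.2
      have q2 := (hmem _ hp'.1).2.2
      have q3 := hp.2.trans hp'.2.symm
      simp only [Prod.mk.injEq] at q1 q2 q3 hpp ⊢
      obtain ⟨z1, z2, z3, z4⟩ := q3
      refine ⟨⟨z1, z2, hpp⟩, z3, z4, ?_⟩
      rw [← q1, ← q2]; exact hpp
    rw [← Finset.card_image_of_injOn hinj]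
    have key := h1 (r ^ 2) f Q (G.image (fun p => p.1.2.2)) hr2 (by omega) ?_ ?_
    · rw [om hr] at key
      calc _ ≤ 2 * f * (Q / r ^ 2 + 1) := key
        _ ≤ 2 * E * 5 := Nat.mul_le_mul (by omega) (mq hr hQ)
        _ = 10 * E := by ring
    · intro q hq
      rw [Finset.mem_image] at hq
      obtain ⟨p, hp, rfl⟩ := hq
      rw [hG, Finset.mem_filter] at hp
      have := hW _ (hmem _ hp.1).1
      exact ⟨copr hr this.2.2.2.2.2.2.1, this.2.2.1⟩
    · intro q hq q' hq'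
      rw [Finset.mem_image] at hq hq'
      obtain ⟨p, hp, rfl⟩ := hq
      obtain ⟨p', hp', rfl⟩ := hq'
      rw [hG, Finset.mem_filter] at hp hp'
      have d1 := (hW _ (hmem _ hp.1).1).2.2.2.2.2.2.2
      have d2 := (hW _ (hmem _ hp'.1).1).2.2.2.2.2.2.2
      have q3 := hp.2.trans hp'.2.symm
      simp only [Prod.mk.injEq] at q3
      obtain ⟨z1, z2, -, -⟩ := q3
      rw [← z1, ← z2] at d2
      rw [Nat.modEq_iff_dvd]
      push_cast
      apply cop hr hB
      have := dvd_sub d1 d2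
      refine (this.trans (dvd_of_eq ?_))
      ring
  -- congruence for the quadruples
  have hTm : ∀ t ∈ T, (1 ≤ t.1 ∧ t.1 ≤ P1) ∧ (1 ≤ t.2.1 ∧ t.2.1 ≤ P2) ∧
      (1 ≤ t.2.2.1 ∧ t.2.2.1 ≤ P1) ∧ (1 ≤ t.2.2.2 ∧ t.2.2.2 ≤ P2) ∧
      t.2.1.Prime ∧ t.2.2.2.Prime ∧ t.2.1 < r ∧ t.2.2.2 < r ∧ ¬ r ∣ t.1 ∧ ¬ r ∣ t.2.2.1 ∧
      (r : ℤ) ^ 2 ∣ (t.1 : ℤ) ^ e1 * (t.2.1 : ℤ) ^ e2 - (t.2.2.1 : ℤ) ^ e1 * (t.2.2.2 : ℤ) ^ e2 := by
    intro t ht
    rw [hT, Finset.mem_image] at ht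
    obtain ⟨p, hp, rfl⟩ := ht
    obtain ⟨m1, m2, m3⟩ := hmem p hp
    obtain ⟨a1, a2, a3, a4, a5, a6, a7, a8⟩ := hW _ m1
    obtain ⟨b1, b2, b3, b4, b5, b6, b7, b8⟩ := hW _ m2
    have pos : ∀ x : ℕ, ¬ r ∣ x → 1 ≤ x := by
      intro x hx
      refine Nat.one_le_iff_ne_zero.mpr ?_
      intro h0
      exact hx (by rw [h0]; exact dvd_zero r)
    refine ⟨⟨pos _ a6, a1⟩, ⟨a4.one_lt.le, a2⟩, ⟨pos _ b6, b1⟩, ⟨b4.one_lt.le, b2⟩, a4, b4, a5, b5,
      a6, b6, ?_⟩
    apply cop hr hA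
    rw [m3] at a8
    have := dvd_sub a8 b8
    refine (this.trans (dvd_of_eq ?_))
    ring
  have hT1 : (T.filter (fun t => t.2.1 ≠ t.2.2.2)).card ≤ 2 * E * (P1 * P1) := by
    have k1 : (T.filter (fun t => t.2.1 ≠ t.2.2.2)).card ≤
        2 * E * ((T.filter (fun t => t.2.1 ≠ t.2.2.2)).image (fun t => (t.1, t.2.2.1))).card := by
      apply Finset.card_le_mul_card_image
      intro s _
      set G := (T.filter (fun t => t.2.1 ≠ t.2.2.2)).filter (fun t => (t.1, t.2.2.1) = s) with hG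
      have hGm : ∀ t ∈ G, t ∈ T ∧ t.2.1 ≠ t.2.2.2 ∧ (t.1, t.2.2.1) = s := by
        intro t ht
        rw [hG, Finset.mem_filter, Finset.mem_filter] at ht
        exact ⟨ht.1.1, ht.1.2, ht.2⟩
      have hinj : Set.InjOn (fun t : ℕ × ℕ × ℕ × ℕ => (t.2.1, t.2.2.2)) (G : Set _) := by
        intro t ht t' ht' htt
        have g1 := (hGm t ht).2.2.trans (hGm t' ht').2.2.symm
        obtain ⟨a, b, c, d⟩ := t
        obtain ⟨a', b', c', d'⟩ := t'
        simp only [Prod.mk.injEq] at g1 htt ⊢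
        exact ⟨g1.1, htt.1, g1.2, htt.2⟩
      rw [← Finset.card_image_of_injOn hinj]
      have key := h2 (r ^ 2) e2 r (G.image (fun t => (t.2.1, t.2.2.2))) hr2 (by omega) le_rfl ?_ ?_
      · rw [om hr] at key
        exact key.trans (by omega)
      · intro z hz
        rw [Finset.mem_image] at hz
        obtain ⟨t, ht, rfl⟩ := hz
        obtain ⟨g1, g2, g3⟩ := hGm t ht
        obtain ⟨-, -, -, -, c5, c6, c7, c8, -, -, -⟩ := hTm t g1
        refine ⟨(Nat.coprime_primes c5 c6).mpr g2, c7, c8, copr hr ?_, copr hr ?_⟩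
        · intro h
          have := (Nat.prime_dvd_prime_iff_eq hr c5).mp h
          omega
        · intro h
          have := (Nat.prime_dvd_prime_iff_eq hr c6).mp h
          omega
      · intro z hz w hw
        rw [Finset.mem_image] at hz hw
        obtain ⟨t, ht, rfl⟩ := hz
        obtain ⟨t', ht', rfl⟩ := hw
        obtain ⟨g1, g2, g3⟩ := hGm t ht
        obtain ⟨g1', g2', g3'⟩ := hGm t' ht'
        obtain ⟨-, -, -, -, -, -, -, -, c9, c10, c11⟩ := hTm t g1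
        obtain ⟨-, -, -, -, -, -, -, -, -, -, d11⟩ := hTm t' g1'
        have g4 := g3.trans g3'.symm
        obtain ⟨x, y, x', y'⟩ := t
        obtain ⟨u, v, u', v'⟩ := t'
        simp only [Prod.mk.injEq] at g4
        obtain ⟨g5, g6⟩ := g4
        subst g5 g6
        simp only at c9 c10 c11 d11 ⊢
        rw [Nat.modEq_iff_dvd]
        push_cast
        -- (x^e1 x'^e1) * ((v y')^e2 - (y v')^e2)
        have n1 : ¬ (r : ℤ) ∣ (x : ℤ) ^ e1 := by
          intro h
          exact c9 (by exact_mod_cast (Nat.prime_iff_prime_int.mp hr).dvd_of_dvd_pow h)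
        have n2 : ¬ (r : ℤ) ∣ (x' : ℤ) ^ e1 := by
          intro h
          exact c10 (by exact_mod_cast (Nat.prime_iff_prime_int.mp hr).dvd_of_dvd_pow h)
        apply cop hr n1
        have w1 := dvd_mul_of_dvd_left d11 ((y' : ℤ) ^ e2)
        have w2 := dvd_mul_of_dvd_left c11 ((v' : ℤ) ^ e2)
        have w3 := dvd_sub w1 w2
        refine (w3.trans (dvd_of_eq ?_))
        ring
    refine k1.trans (Nat.mul_le_mul le_rfl ?_)
    have k2 : (T.filter (fun t => t.2.1 ≠ t.2.2.2)).image (fun t => (t.1, t.2.2.1)) ⊆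
        Finset.Icc 1 P1 ×ˢ Finset.Icc 1 P1 := by
      intro z hz
      rw [Finset.mem_image] at hz
      obtain ⟨t, ht, rfl⟩ := hz
      obtain ⟨c1, c2, c3, -⟩ := hTm t (Finset.mem_filter.mp ht).1
      rw [Finset.mem_product, Finset.mem_Icc, Finset.mem_Icc]
      exact ⟨c1, c3⟩
    calc _ ≤ (Finset.Icc 1 P1 ×ˢ Finset.Icc 1 P1).card := Finset.card_le_card k2
      _ = P1 * P1 := by simp
  have hT2 : (T.filter (fun t => ¬ t.2.1 ≠ t.2.2.2)).card ≤ 10 * E * (P1 * P2) := by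
    have k1 : (T.filter (fun t => ¬ t.2.1 ≠ t.2.2.2)).card ≤
        10 * E * ((T.filter (fun t => ¬ t.2.1 ≠ t.2.2.2)).image (fun t => (t.1, t.2.1))).card := by
      apply Finset.card_le_mul_card_image
      intro s _
      set G := (T.filter (fun t => ¬ t.2.1 ≠ t.2.2.2)).filter (fun t => (t.1, t.2.1) = s) with hG
      have hGm : ∀ t ∈ G, t ∈ T ∧ t.2.1 = t.2.2.2 ∧ (t.1, t.2.1) = s := by
        intro t ht
        rw [hG, Finset.mem_filter, Finset.mem_filter] at ht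
        exact ⟨ht.1.1, not_not.mp ht.1.2, ht.2⟩
      have hinj : Set.InjOn (fun t : ℕ × ℕ × ℕ × ℕ => t.2.2.1) (G : Set _) := by
        intro t ht t' ht' htt
        have g1 := (hGm t ht).2.2.trans (hGm t' ht').2.2.symm
        have g2 := (hGm t ht).2.1
        have g3 := (hGm t' ht').2.1
        obtain ⟨a, b, c, d⟩ := t
        obtain ⟨a', b', c', d'⟩ := t'
        simp only [Prod.mk.injEq] at g1 g2 g3 htt ⊢
        refine ⟨g1.1, g1.2, htt, ?_⟩
        rw [← g2, ← g3]; exact g1.2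
      rw [← Finset.card_image_of_injOn hinj]
      have key := h1 (r ^ 2) e1 P1 (G.image (fun t => t.2.2.1)) hr2 (by omega) ?_ ?_
      · rw [om hr] at key
        calc _ ≤ 2 * e1 * (P1 / r ^ 2 + 1) := key
          _ ≤ 2 * E * 5 := Nat.mul_le_mul (by omega) (mq hr hP1)
          _ = 10 * E := by ring
      · intro z hz
        rw [Finset.mem_image] at hz
        obtain ⟨t, ht, rfl⟩ := hz
        obtain ⟨g1, g2, g3⟩ := hGm t ht
        obtain ⟨-, -, c3, -, -, -, -, -, -, c10, -⟩ := hTm t g1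
        exact ⟨copr hr c10, c3.2⟩
      · intro z hz w hw
        rw [Finset.mem_image] at hz hw
        obtain ⟨t, ht, rfl⟩ := hz
        obtain ⟨t', ht', rfl⟩ := hw
        obtain ⟨g1, g2, g3⟩ := hGm t ht
        obtain ⟨g1', g2', g3'⟩ := hGm t' ht'
        obtain ⟨-, -, -, -, c5, -, c7, -, -, -, c11⟩ := hTm t g1
        obtain ⟨-, -, -, -, -, -, -, -, -, -, d11⟩ := hTm t' g1'
        have g4 := g3.trans g3'.symm
        obtain ⟨x, y, x', y'⟩ := t
        obtain ⟨u, v, u', v'⟩ := t'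
        simp only [Prod.mk.injEq] at g4 g2 g2'
        obtain ⟨g5, g6⟩ := g4
        subst g5 g6
        simp only at c5 c7 c11 d11 ⊢
        rw [← g2] at c11
        rw [← g2'] at d11
        rw [Nat.modEq_iff_dvd]
        push_cast
        have n1 : ¬ (r : ℤ) ∣ (y : ℤ) ^ e2 := by
          intro h
          have h' : r ∣ y := by
            exact_mod_cast (Nat.prime_iff_prime_int.mp hr).dvd_of_dvd_pow h
          have := (Nat.prime_dvd_prime_iff_eq hr c5).mp h'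
          omega
        apply cop hr n1
        have w3 := dvd_sub c11 d11
        refine (w3.trans (dvd_of_eq ?_))
        ring
    refine k1.trans (Nat.mul_le_mul le_rfl ?_)
    have k2 : (T.filter (fun t => ¬ t.2.1 ≠ t.2.2.2)).image (fun t => (t.1, t.2.1)) ⊆
        Finset.Icc 1 P1 ×ˢ Finset.Icc 1 P2 := by
      intro z hz
      rw [Finset.mem_image] at hz
      obtain ⟨t, ht, rfl⟩ := hz
      obtain ⟨c1, c2, c3, -⟩ := hTm t (Finset.mem_filter.mp ht).1
      rw [Finset.mem_product, Finset.mem_Icc, Finset.mem_Icc]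
      exact ⟨c1, c2⟩
    calc _ ≤ (Finset.Icc 1 P1 ×ˢ Finset.Icc 1 P2).card := Finset.card_le_card k2
      _ = P1 * P2 := by simp
  have hTc : T.card ≤ 10 * E * (P1 * (P1 + P2)) := by
    have := Finset.card_filter_add_card_filter_not (s := T) (fun t => t.2.1 ≠ t.2.2.2)
    rw [← this]
    calc _ ≤ 2 * E * (P1 * P1) + 10 * E * (P1 * P2) := Nat.add_le_add hT1 hT2
      _ ≤ 10 * E * (P1 * P1) + 10 * E * (P1 * P2) := by
          apply Nat.add_le_add_right
          apply Nat.mul_le_mul_right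
          omega
      _ = 10 * E * (P1 * (P1 + P2)) := by ring
  have hfin : W.card ^ 2 ≤ (10 * E) ^ 2 * (Q * (P1 * (P1 + P2))) := by
    calc W.card ^ 2 ≤ Q * PW.card := hCS
      _ ≤ Q * (10 * E * (10 * E * (P1 * (P1 + P2)))) :=
          Nat.mul_le_mul le_rfl (hPT.trans (Nat.mul_le_mul le_rfl hTc))
      _ = (10 * E) ^ 2 * (Q * (P1 * (P1 + P2))) := by ring
  have hfinR : (W.card : ℝ) ^ 2 ≤ (10 * E) ^ 2 * ((Q : ℝ) * (P1 * (P1 + P2))) := by
    exact_mod_cast hfin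
  have hnn : (0 : ℝ) ≤ 10 * E * Real.sqrt (Q * (P1 * (P1 + P2))) := by positivity
  apply le_of_sq_le_sq _ hnn
  rw [mul_pow, Real.sq_sqrt (by positivity)]
  exact hfinR

end Pool.MED
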